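import Pool.Agent.T9h11.NF.Spec2

/-!
# `LipX`: the functions used in the slots are Lipschitz
-/

set_option autoImplicit false

namespace Pool.Agent.T9h41.NF

open Finset NumberField Pool.Agent.T9h11.NF

variable {K : Type} [Field K] [NumberField K]

/-- bounded and Lipschitz on `A` with constant `C`. -/
def LB (A : Set (Sp K)) (C : ℝ) (f : Sp K → ℝ) : Prop :=
  (∀ z ∈ A, |f z| ≤ C) ∧ ∀ z ∈ A, ∀ z' ∈ A, |f z - f z'| ≤ C * ‖z - z'‖

lemma LB.mono {A : Set (Sp K)} {C C' : ℝ} {f : Sp K → ℝ} (h : LB A C f) (hC : C ≤ C') :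
    LB A C' f :=
  ⟨fun z hz => (h.1 z hz).trans hC, fun z hz z' hz' =>
    (h.2 z hz z' hz').trans (mul_le_mul_of_nonneg_right hC (norm_nonneg _))⟩

lemma LB.mul {A : Set (Sp K)} {C C' : ℝ} {f g : Sp K → ℝ} (hC : 0 ≤ C) (hC' : 0 ≤ C')
    (hf : LB A C f) (hg : LB A C' g) : LB A (2 * C * C') (fun z => f z * g z) := by
  have h0 : 0 ≤ C * C' := mul_nonneg hC hC'
  refine ⟨fun z hz => ?_, fun z hz z' hz' => ?_⟩
  · rw [abs_mul]
    have := mul_le_mul (hf.1 z hz) (hg.1 z hz) (abs_nonneg _) hC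
    linarith
  · have h1 : f z * g z - f z' * g z' = f z * (g z - g z') + (f z - f z') * g z' := by ring
    rw [h1]
    refine (abs_add_le _ _).trans ?_
    rw [abs_mul, abs_mul]
    have h2 := mul_le_mul (hf.1 z hz) (hg.2 z hz z' hz') (abs_nonneg _) hC
    have h3 := mul_le_mul (hf.2 z hz z' hz') (hg.1 z' hz') (abs_nonneg _)
      (mul_nonneg hC (norm_nonneg _))
    nlinarith

lemma LB.pow {A : Set (Sp K)} {C : ℝ} {f : Sp K → ℝ} (hC : 0 ≤ C) (hf : LB A C f) (n : ℕ) :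
    ∃ C', 0 ≤ C' ∧ LB A C' (fun z => f z ^ n) := by
  induction n with
  | zero =>
    refine ⟨1, zero_le_one, fun z _ => by simp, fun z _ z' _ => ?_⟩
    simp only [pow_zero, sub_self, abs_zero, one_mul]
    exact norm_nonneg _
  | succ n ih =>
    obtain ⟨C', h0, h1⟩ := ih
    refine ⟨2 * C' * C, by positivity, ?_⟩
    have := LB.mul h0 hC h1 hf
    simpa only [pow_succ] using this

lemma LB.prod {A : Set (Sp K)} {ι : Type} (s : Finset ι) (f : ι → Sp K → ℝ)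
    (h : ∀ i ∈ s, ∃ C, 0 ≤ C ∧ LB A C (f i)) :
    ∃ C', 0 ≤ C' ∧ LB A C' (fun z => ∏ i ∈ s, f i z) := by
  classical
  induction s using Finset.induction_on with
  | empty =>
    refine ⟨1, zero_le_one, fun z _ => by simp, fun z _ z' _ => ?_⟩
    simp only [prod_empty, sub_self, abs_zero, one_mul]
    exact norm_nonneg _
  | insert i s hi ih =>
    obtain ⟨C', h0, h1⟩ := ih fun j hj => h j (mem_insert_of_mem hj)
    obtain ⟨C, h2, h3⟩ := h i (mem_insert_self i s)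
    refine ⟨2 * C * C', by positivity, ?_⟩
    have := LB.mul h2 h0 h3 h1
    simpa only [prod_insert hi] using this

/-- the points with all coordinates at least `c`. -/
def Ac (K : Type) [Field K] [NumberField K] (c : ℝ) : Set (Sp K) := {z | ∀ v, c ≤ ‖z v‖}

lemma inv_lb {c : ℝ} (hc : 0 < c) (v : InfinitePlace K) :
    ∃ C, 0 ≤ C ∧ LB (Ac K c) C (fun z => ‖z v‖⁻¹) := by
  refine ⟨c⁻¹ + (c * c)⁻¹, by positivity, fun z hz => ?_, fun z hz z' hz' => ?_⟩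
  · have h1 : c ≤ ‖z v‖ := hz v
    rw [abs_of_nonneg (by positivity)]
    have h2 : ‖z v‖⁻¹ ≤ c⁻¹ := inv_anti₀ hc h1
    have h3 : 0 < (c * c)⁻¹ := by positivity
    linarith
  · have h1 : c ≤ ‖z v‖ := hz v
    have h2 : c ≤ ‖z' v‖ := hz' v
    have p1 : 0 < ‖z v‖ := hc.trans_le h1
    have p2 : 0 < ‖z' v‖ := hc.trans_le h2
    rw [inv_sub_inv p1.ne' p2.ne', abs_div, abs_of_pos (mul_pos p1 p2), div_eq_mul_inv,
      mul_comm]
    have h3 : |‖z' v‖ - ‖z v‖| ≤ ‖z - z'‖ := by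
      rw [abs_sub_comm]
      refine (abs_norm_sub_norm_le _ _).trans ?_
      have := norm_le_pi_norm (z - z') v
      simpa using this
    have h4 : (‖z v‖ * ‖z' v‖)⁻¹ ≤ (c * c)⁻¹ :=
      inv_anti₀ (mul_pos hc hc) (mul_le_mul h1 h2 hc.le p1.le)
    have h5 : 0 < c⁻¹ := by positivity
    calc (‖z v‖ * ‖z' v‖)⁻¹ * |‖z' v‖ - ‖z v‖| ≤ (c * c)⁻¹ * ‖z - z'‖ :=
          mul_le_mul h4 h3 (abs_nonneg _) (by positivity)
      _ ≤ (c⁻¹ + (c * c)⁻¹) * ‖z - z'‖ := by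
          refine mul_le_mul_of_nonneg_right ?_ (norm_nonneg _)
          linarith

lemma nrm_inv_lb {c : ℝ} (hc : 0 < c) :
    ∃ C, 0 ≤ C ∧ LB (Ac K c) C (fun z => (nrm z)⁻¹) := by
  have h := LB.prod (A := Ac K c) (Finset.univ : Finset (InfinitePlace K))
    (fun v z => (‖z v‖⁻¹) ^ v.mult) (fun v _ => by
      obtain ⟨C, h0, h1⟩ := inv_lb (K := K) hc v
      exact LB.pow h0 h1 v.mult)
  obtain ⟨C, h0, h1⟩ := h
  refine ⟨C, h0, ?_⟩
  have : (fun z : Sp K => (nrm z)⁻¹) = fun z => ∏ v, (‖z v‖⁻¹) ^ v.mult := by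
    funext z
    unfold nrm
    rw [← Finset.prod_inv_distrib]
    exact Finset.prod_congr rfl fun v _ => by rw [inv_pow]
  rw [this]
  exact h1

lemma lipF_mono {L L' B B' : ℝ} {F : Sp K → ℝ} (h : LipF L B F) (hL : L ≤ L') (hB : B ≤ B') :
    LipF L' B' F :=
  ⟨fun z z' => (h.1 z z').trans (mul_le_mul_of_nonneg_right hL (norm_nonneg _)),
    fun z hz => (h.2 z hz).trans hB⟩

/-- from local to global. -/
lemma glue {c C B : ℝ} (hc : 0 < c) (hC : 0 ≤ C) {f : Sp K → ℝ}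
    (hB : ∀ z, f z ≠ 0 → ∀ v, ‖z v‖ ≤ B) (hbd : ∀ z, |f z| ≤ C)
    (hloc : ∀ z z', f z ≠ 0 → ‖z - z'‖ ≤ c → |f z - f z'| ≤ C * ‖z - z'‖) :
    LipF (C + 2 * C / c) |B| f := by
  have h0 : 0 ≤ 2 * C / c := by positivity
  constructor
  · have key : ∀ z z', f z ≠ 0 → |f z - f z'| ≤ (C + 2 * C / c) * ‖z - z'‖ := by
      intro z z' hz
      rcases le_or_gt ‖z - z'‖ c with h1 | h1
      · refine (hloc z z' hz h1).trans (mul_le_mul_of_nonneg_right ?_ (norm_nonneg _))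
        linarith
      · have h2 : |f z - f z'| ≤ 2 * C := by
          refine (abs_sub _ _).trans ?_
          linarith [hbd z, hbd z']
        refine h2.trans ?_
        have h3 : 2 * C / c * c ≤ 2 * C / c * ‖z - z'‖ := mul_le_mul_of_nonneg_left h1.le h0
        rw [div_mul_cancel₀ _ hc.ne'] at h3
        have h4 : 0 ≤ C * ‖z - z'‖ := by positivity
        linarith
    intro z z'
    by_cases hz : f z = 0
    · by_cases hz' : f z' = 0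
      · rw [hz, hz', sub_self, abs_zero]
        positivity
      · rw [abs_sub_comm, norm_sub_rev]
        exact key z' z hz'
    · exact key z z' hz
  · intro z hz
    rw [pi_norm_le_iff_of_nonneg (abs_nonneg _)]
    exact fun v => (hB z hz v).trans (le_abs_self _)

lemma mem_Ac_of_near {c : ℝ} {z z' : Sp K} (hz : ∀ v, c ≤ ‖z v‖) (h : ‖z - z'‖ ≤ c / 2) :
    z' ∈ Ac K (c / 2) := by
  intro v
  have h1 : ‖z v - z' v‖ ≤ c / 2 := by
    have := norm_le_pi_norm (z - z') v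
    simp only [Pi.sub_apply] at this
    exact this.trans h
  have h2 := hz v
  have h3 : ‖z v‖ ≤ ‖z v - z' v‖ + ‖z' v‖ := by
    have := norm_add_le (z v - z' v) (z' v)
    simpa using this
  linarith

/-- the general statement: `ρ` times a function which is bounded and Lipschitz near the support. -/
lemma main_lip {c₁ c₂ C₁ C₂ : ℝ} (hc : 0 < c₁) (hC₁ : 0 ≤ C₁) (hC₂ : 0 ≤ C₂) {ρ g : Sp K → ℝ}
    (hρ : LB Set.univ C₁ ρ) (hs : ∀ z, ρ z ≠ 0 → ∀ v, c₁ ≤ ‖z v‖ ∧ ‖z v‖ ≤ c₂)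
    (hg : ∀ z, ρ z ≠ 0 → g z ≠ 0 → LB (Ac K (c₁ / 2)) C₂ g) :
    LipF (2 * C₁ * C₂ + 2 * (2 * C₁ * C₂) / (c₁ / 2)) |c₂| (fun z => ρ z * g z) := by
  refine glue (by positivity) (by positivity) ?_ ?_ ?_
  · intro z hz v
    exact (hs z (left_ne_zero_of_mul hz) v).2
  · intro z
    by_cases h : ρ z * g z = 0
    · rw [h, abs_zero]
      positivity
    · have h1 := left_ne_zero_of_mul h
      have h2 := right_ne_zero_of_mul h
      have hz : z ∈ Ac K (c₁ / 2) := fun v => by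
        have := (hs z h1 v).1
        linarith
      rw [abs_mul]
      have h3 := mul_le_mul (hρ.1 z trivial) ((hg z h1 h2).1 z hz) (abs_nonneg _) hC₁
      nlinarith [mul_nonneg hC₁ hC₂]
  · intro z z' h hzz
    have h1 := left_ne_zero_of_mul h
    have h2 := right_ne_zero_of_mul h
    have hz : z ∈ Ac K (c₁ / 2) := fun v => by
      have := (hs z h1 v).1
      linarith
    have hz' := mem_Ac_of_near (fun v => (hs z h1 v).1) hzz
    have hρ' : LB (Ac K (c₁ / 2)) C₁ ρ := ⟨fun z _ => hρ.1 z trivial, fun z _ z' _ =>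
      hρ.2 z trivial z' trivial⟩
    exact (LB.mul hC₁ hC₂ hρ' (hg z h1 h2)).2 z hz z' hz'

/-- window functions composed with `z ↦ w z`. -/
lemma comp_mul {L C : ℝ} {A : Set (Sp K)} {Ψ : Sp K → ℝ} (hb : ∀ z, |Ψ z| ≤ 1)
    (hL : ∀ z z', |Ψ z - Ψ z'| ≤ L * ‖z - z'‖) (hL0 : 0 ≤ L) (hC : 0 ≤ C) {w : Sp K}
    (hw : ‖w‖ ≤ C) : LB A (1 + L * C) (fun z => Ψ (w * z)) := by
  refine ⟨fun z _ => (hb _).trans (by nlinarith [mul_nonneg hL0 hC]), fun z _ z' _ => ?_⟩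
  refine (hL _ _).trans ?_
  rw [← mul_sub]
  have h1 : ‖w * (z - z')‖ ≤ C * ‖z - z'‖ :=
    (norm_mul_le _ _).trans (mul_le_mul_of_nonneg_right hw (norm_nonneg _))
  have h2 := mul_le_mul_of_nonneg_left h1 hL0
  nlinarith [norm_nonneg (z - z')]

lemma inv_sub_norm {c : ℝ} (hc : 0 < c) {z z' : Sp K} (hz : z ∈ Ac K c) (hz' : z' ∈ Ac K c) :
    ‖z⁻¹ - z'⁻¹‖ ≤ (c * c)⁻¹ * ‖z - z'‖ := by
  rw [pi_norm_le_iff_of_nonneg (by positivity)]
  intro v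
  have h1 : c ≤ ‖z v‖ := hz v
  have h2 : c ≤ ‖z' v‖ := hz' v
  have p1 : 0 < ‖z v‖ := hc.trans_le h1
  have p2 : 0 < ‖z' v‖ := hc.trans_le h2
  have n1 : z v ≠ 0 := norm_pos_iff.1 p1
  have n2 : z' v ≠ 0 := norm_pos_iff.1 p2
  rw [Pi.sub_apply, Pi.inv_apply, Pi.inv_apply, inv_sub_inv n1 n2, norm_div, norm_mul,
    div_eq_mul_inv, mul_comm]
  have h3 : ‖z' v - z v‖ ≤ ‖z - z'‖ := by
    rw [norm_sub_rev]
    have := norm_le_pi_norm (z - z') v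
    simpa using this
  have h4 : (‖z v‖ * ‖z' v‖)⁻¹ ≤ (c * c)⁻¹ :=
    inv_anti₀ (mul_pos hc hc) (mul_le_mul h1 h2 hc.le p1.le)
  exact mul_le_mul h4 h3 (norm_nonneg _) (by positivity)

/-- window functions composed with `z ↦ w z⁻¹`. -/
lemma comp_inv {L C c : ℝ} (hc : 0 < c) {Ψ : Sp K → ℝ} (hb : ∀ z, |Ψ z| ≤ 1)
    (hL : ∀ z z', |Ψ z - Ψ z'| ≤ L * ‖z - z'‖) (hL0 : 0 ≤ L) (hC : 0 ≤ C) {w : Sp K}
    (hw : ‖w‖ ≤ C) : LB (Ac K c) (1 + L * (C * (c * c)⁻¹)) (fun z => Ψ (w * z⁻¹)) := by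
  have h0 : 0 ≤ L * (C * (c * c)⁻¹) := by positivity
  refine ⟨fun z _ => (hb _).trans (by linarith), fun z hz z' hz' => ?_⟩
  refine (hL _ _).trans ?_
  rw [← mul_sub]
  have h1 : ‖w * (z⁻¹ - z'⁻¹)‖ ≤ C * ((c * c)⁻¹ * ‖z - z'‖) :=
    (norm_mul_le _ _).trans (mul_le_mul hw (inv_sub_norm hc hz hz') (norm_nonneg _) hC)
  have h2 := mul_le_mul_of_nonneg_left h1 hL0
  have h3 : L * (C * ((c * c)⁻¹ * ‖z - z'‖)) = L * (C * (c * c)⁻¹) * ‖z - z'‖ := by ring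
  rw [h3] at h2
  nlinarith [norm_nonneg (z - z')]

/-- **(LipX)** -/
theorem lipX (K : Type) [Field K] [NumberField K] : LipX K := by
  intro ρ Ψ hρ hΨ
  obtain ⟨hρb, ⟨L₁, hL₁⟩, ⟨c₁, c₂, hc₁, hs⟩, -⟩ := hρ
  obtain ⟨hΨb, ⟨L₂, hL₂⟩, ⟨d₁, d₂, hd₁, ht⟩, -⟩ := hΨ
  have hρ1 : ∀ z, |ρ z| ≤ 1 := fun z => by
    rw [abs_of_nonneg (hρb z).1]
    exact (hρb z).2
  have hΨ1 : ∀ z, |Ψ z| ≤ 1 := fun z => by
    rw [abs_of_nonneg (hΨb z).1]
    exact (hΨb z).2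
  have hL₁' : ∀ z z', |ρ z - ρ z'| ≤ |L₁| * ‖z - z'‖ := fun z z' => (hL₁ z z').trans
    (mul_le_mul_of_nonneg_right (le_abs_self _) (norm_nonneg _))
  have hL₂' : ∀ z z', |Ψ z - Ψ z'| ≤ |L₂| * ‖z - z'‖ := fun z z' => (hL₂ z z').trans
    (mul_le_mul_of_nonneg_right (le_abs_self _) (norm_nonneg _))
  have hρL : LB Set.univ (1 + |L₁|) ρ := ⟨fun z _ => (hρ1 z).trans (by linarith [abs_nonneg L₁]),
    fun z _ z' _ => (hL₁' z z').trans
      (mul_le_mul_of_nonneg_right (by linarith) (norm_nonneg _))⟩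
  have hΨL : LB Set.univ (1 + |L₂|) Ψ := ⟨fun z _ => (hΨ1 z).trans (by linarith [abs_nonneg L₂]),
    fun z _ z' _ => (hL₂' z z').trans
      (mul_le_mul_of_nonneg_right (by linarith) (norm_nonneg _))⟩
  have hC₁ : 0 ≤ 1 + |L₁| := by positivity
  have hC₂ : 0 ≤ 1 + |L₂| := by positivity
  -- the norm
  obtain ⟨N₁, hN₁, hn₁⟩ := nrm_inv_lb (K := K) (half_pos hc₁)
  obtain ⟨N₂, hN₂, hn₂⟩ := nrm_inv_lb (K := K) (half_pos hd₁)
  -- size of `w`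
  have hw : ∀ z w : Sp K, ρ z ≠ 0 → Ψ (w * z) ≠ 0 → ‖w‖ ≤ |d₂| / c₁ := by
    intro z w hz hwz
    rw [pi_norm_le_iff_of_nonneg (by positivity)]
    intro v
    have h1 := (hs z hz v).1
    have h2 := (ht _ hwz v).2
    rw [Pi.mul_apply, norm_mul] at h2
    rw [le_div_iff₀ hc₁]
    exact (mul_le_mul_of_nonneg_left h1 (norm_nonneg _)).trans (h2.trans (le_abs_self _))
  have hw2 : ∀ z w : Sp K, ρ z ≠ 0 → Ψ (w * z⁻¹) ≠ 0 → ‖w‖ ≤ |d₂| * |c₂| := by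
    intro z w hz hwz
    rw [pi_norm_le_iff_of_nonneg (by positivity)]
    intro v
    have h1 := (hs z hz v).1
    have h1' := (hs z hz v).2
    have p1 : 0 < ‖z v‖ := hc₁.trans_le h1
    have h2 := (ht _ hwz v).2
    rw [Pi.mul_apply, Pi.inv_apply, norm_mul, norm_inv, ← div_eq_mul_inv, div_le_iff₀ p1] at h2
    refine h2.trans ?_
    exact mul_le_mul (le_abs_self _) (h1'.trans (le_abs_self _)) p1.le (abs_nonneg _)
  -- the five statements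
  obtain ⟨Ca, hCa, hCa0⟩ : ∃ Ca : ℝ, Ca = 2 * N₁ * (1 + |L₂| * (|d₂| / c₁)) ∧ 0 ≤ Ca :=
    ⟨_, rfl, by positivity⟩
  obtain ⟨Cb, hCb, hCb0⟩ : ∃ Cb : ℝ, Cb =
      2 * (1 + |L₂| * (|d₂| * |c₂| * (c₁ / 2 * (c₁ / 2))⁻¹)) *
        (1 + |L₂| * (|d₂| * |c₂| * (c₁ / 2 * (c₁ / 2))⁻¹)) ∧ 0 ≤ Cb :=
    ⟨_, rfl, by positivity⟩
  obtain ⟨La, ha⟩ : ∃ La, ∀ w : Sp K, LipF La |c₂| (fun z => ρ z / nrm z * Ψ (w * z)) := by
    refine ⟨2 * (1 + |L₁|) * Ca + 2 * (2 * (1 + |L₁|) * Ca) / (c₁ / 2), fun w => ?_⟩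
    have h := main_lip (K := K) (C₁ := 1 + |L₁|) (C₂ := Ca) hc₁ hC₁ hCa0 hρL hs
      (g := fun z => (nrm z)⁻¹ * Ψ (w * z)) (fun z hz hg => by
        have h2 : Ψ (w * z) ≠ 0 := fun h0 => hg (by simp [h0])
        rw [hCa]
        exact LB.mul hN₁ (by positivity) hn₁ (comp_mul hΨ1 hL₂' (abs_nonneg _) (by positivity)
          (hw z w hz h2)))
    have e : (fun z : Sp K => ρ z / nrm z * Ψ (w * z)) =
        fun z => ρ z * ((nrm z)⁻¹ * Ψ (w * z)) := by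
      funext z
      rw [div_eq_mul_inv, mul_assoc]
    rw [e]
    exact h
  obtain ⟨Lb, hb⟩ : ∃ Lb, ∀ w w' : Sp K,
      LipF Lb |c₂| (fun z => ρ z * Ψ (w * z⁻¹) * Ψ (w' * z⁻¹)) := by
    refine ⟨2 * (1 + |L₁|) * Cb + 2 * (2 * (1 + |L₁|) * Cb) / (c₁ / 2), fun w w' => ?_⟩
    have h := main_lip (K := K) (C₁ := 1 + |L₁|) (C₂ := Cb) hc₁ hC₁ hCb0 hρL hs
      (g := fun z => Ψ (w * z⁻¹) * Ψ (w' * z⁻¹)) (fun z hz hg => by
        have h2 : Ψ (w * z⁻¹) ≠ 0 := fun h0 => hg (by simp [h0])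
        have h3 : Ψ (w' * z⁻¹) ≠ 0 := fun h0 => hg (by simp [h0])
        rw [hCb]
        exact LB.mul (by positivity) (by positivity)
          (comp_inv (half_pos hc₁) hΨ1 hL₂' (abs_nonneg _) (by positivity) (hw2 z w hz h2))
          (comp_inv (half_pos hc₁) hΨ1 hL₂' (abs_nonneg _) (by positivity) (hw2 z w' hz h3)))
    have e : (fun z : Sp K => ρ z * Ψ (w * z⁻¹) * Ψ (w' * z⁻¹)) =
        fun z => ρ z * (Ψ (w * z⁻¹) * Ψ (w' * z⁻¹)) := by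
      funext z
      rw [mul_assoc]
    rw [e]
    exact h
  obtain ⟨Lc, hc⟩ : ∃ Lc, LipF Lc |c₂| (fun z => ρ z / nrm z) :=
    ⟨_, main_lip (K := K) (C₁ := 1 + |L₁|) (C₂ := N₁) hc₁ hC₁ hN₁ hρL hs
      (g := fun z => (nrm z)⁻¹) (fun z hz hg => hn₁)⟩
  obtain ⟨Le, he⟩ : ∃ Le, LipF Le |d₂| (fun z => Ψ z / nrm z) :=
    ⟨_, main_lip (K := K) (C₁ := 1 + |L₂|) (C₂ := N₂) hd₁ hC₂ hN₂ hΨL ht
      (g := fun z => (nrm z)⁻¹) (fun z hz hg => hn₂)⟩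
  have hd : LipF |L₁| |c₂| ρ := by
    refine ⟨hL₁', fun z hz => ?_⟩
    rw [pi_norm_le_iff_of_nonneg (abs_nonneg _)]
    exact fun v => ((hs z hz v).2).trans (le_abs_self _)
  refine ⟨|La| + |Lb| + |Lc| + |Le| + |L₁|, |c₂| + |d₂|, by positivity, by positivity,
    fun w => lipF_mono (ha w) ?_ ?_, fun w w' => lipF_mono (hb w w') ?_ ?_, lipF_mono hc ?_ ?_,
    lipF_mono hd ?_ ?_, lipF_mono he ?_ ?_⟩ <;>
  linarith [abs_nonneg La, abs_nonneg Lb, abs_nonneg Lc, abs_nonneg Le, abs_nonneg L₁,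
    abs_nonneg c₂, abs_nonneg d₂, le_abs_self La, le_abs_self Lb, le_abs_self Lc, le_abs_self Le]

end Pool.Agent.T9h41.NF
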